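import Pool.Agent.K1H70.KR.Stm

/-!
# Krylov determinants, piece P4: operators on the slice `v = e_0`
-/

set_option autoImplicit false

namespace Pool.Agent.K1H31.KR

open MvPolynomial Pool.Agent.K1H70.KR

section basics

variable {σ : Type}

theorem gen_inl (u : σ) (p : MvPolynomial σ ℂ) : gen (Sum.inl u) p = X u * p := rfl

theorem gen_inr (u : σ) (p : MvPolynomial σ ℂ) : gen (Sum.inr u) p = pderiv u p := rfl

theorem wd_nil : wd ([] : List (σ ⊕ σ)) = 1 := rfl

theorem wd_cons (g : σ ⊕ σ) (w : List (σ ⊕ σ)) : wd (g :: w) = gen g * wd w := by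
  simp [wd]

theorem wd_append (w w' : List (σ ⊕ σ)) : wd (w ++ w') = wd w * wd w' := by
  simp [wd]

theorem wd_mem (w : List (σ ⊕ σ)) : wd w ∈ W σ := Submodule.subset_span ⟨w, rfl⟩

theorem gen_mem (g : σ ⊕ σ) : gen g ∈ W σ := by
  have := wd_mem [g]
  rwa [wd_cons, wd_nil, mul_one] at this

theorem one_mem_W : (1 : Module.End ℂ (MvPolynomial σ ℂ)) ∈ W σ := wd_mem []

theorem mul_mem_W {P Q : Module.End ℂ (MvPolynomial σ ℂ)} (hP : P ∈ W σ) (hQ : Q ∈ W σ) :
    P * Q ∈ W σ := by
  have h := Submodule.mul_mem_mul hP hQ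
  unfold W at h ⊢
  rw [Submodule.span_mul_span] at h
  refine Submodule.span_mono ?_ h
  rintro _ ⟨_, ⟨w, rfl⟩, _, ⟨w', rfl⟩, rfl⟩
  exact ⟨w ++ w', wd_append w w'⟩

/-- the span of the words of length `k` -/
noncomputable def Wk (k : ℕ) : Submodule ℂ (Module.End ℂ (MvPolynomial σ ℂ)) :=
  Submodule.span ℂ (wd '' {w | w.length = k})

theorem wd_mem_Wk (w : List (σ ⊕ σ)) : wd w ∈ Wk w.length :=
  Submodule.subset_span ⟨w, rfl, rfl⟩

theorem gen_mul_Wk (g : σ ⊕ σ) {k : ℕ} {P : Module.End ℂ (MvPolynomial σ ℂ)} (hP : P ∈ Wk k) :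
    gen g * P ∈ Wk (k + 1) := by
  unfold Wk at hP
  induction hP using Submodule.span_induction with
  | mem x hx =>
    obtain ⟨w, hw, rfl⟩ := hx
    refine Submodule.subset_span ⟨g :: w, ?_, wd_cons g w⟩
    have : w.length = k := hw
    simp [this]
  | zero => rw [mul_zero]; exact Submodule.zero_mem _
  | add x y _ _ hx hy => rw [mul_add]; exact Submodule.add_mem _ hx hy
  | smul a x _ hx => rw [mul_smul_comm]; exact Submodule.smul_mem _ _ hx

theorem pderiv_comm' (s t : σ) (p : MvPolynomial σ ℂ) :
    pderiv s (pderiv t p) = pderiv t (pderiv s p) := by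
  classical
  have h : ⁅(pderiv s : Derivation ℂ (MvPolynomial σ ℂ) (MvPolynomial σ ℂ)),
      (pderiv t : Derivation ℂ (MvPolynomial σ ℂ) (MvPolynomial σ ℂ))⁆ = 0 := by
    refine derivation_ext fun i => ?_
    rw [Derivation.commutator_apply, Derivation.zero_apply, pderiv_X, pderiv_X]
    have h1 : ∀ a b : σ,
        (pderiv a : Derivation ℂ (MvPolynomial σ ℂ) (MvPolynomial σ ℂ))
          (Pi.single (M := fun _ => MvPolynomial σ ℂ) b 1 i) = 0 := by
      intro a b
      by_cases hb : i = b
      · subst hb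
        rw [Pi.single_eq_same, pderiv_one]
      · rw [Pi.single_eq_of_ne hb, map_zero]
    rw [h1, h1, sub_zero]
  have h2 := congrArg (fun d : Derivation ℂ (MvPolynomial σ ℂ) (MvPolynomial σ ℂ) => d p) h
  simp only [Derivation.commutator_apply, Derivation.zero_apply] at h2
  exact sub_eq_zero.1 h2

end basics

section linear

variable {σ : Type} [Fintype σ]

theorem lin_apply (M : σ → σ → ℝ) (p : MvPolynomial σ ℂ) :
    lin M p = ∑ u, ∑ w, ((M u w : ℝ) : ℂ) • (X u * pderiv w p) := by
  simp only [lin, LinearMap.sum_apply, LinearMap.smul_apply, Module.End.mul_apply, gen_inl,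
    gen_inr]

theorem lin_mul (M : σ → σ → ℝ) (p q : MvPolynomial σ ℂ) :
    lin M (p * q) = p * lin M q + q * lin M p := by
  rw [lin_apply, lin_apply, lin_apply, Finset.mul_sum, Finset.mul_sum, ← Finset.sum_add_distrib]
  refine Finset.sum_congr rfl fun u _ => ?_
  rw [Finset.mul_sum, Finset.mul_sum, ← Finset.sum_add_distrib]
  refine Finset.sum_congr rfl fun w _ => ?_
  rw [pderiv_mul, mul_smul_comm, mul_smul_comm, ← smul_add]
  congr 1
  ring

theorem lin_one (M : σ → σ → ℝ) : lin M 1 = 0 := by
  rw [lin_apply]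
  refine Finset.sum_eq_zero fun u _ => Finset.sum_eq_zero fun w _ => ?_
  rw [pderiv_one, mul_zero, smul_zero]

open Classical in
theorem lin_X (M : σ → σ → ℝ) (t : σ) :
    lin M (X t) = ∑ u, ((M u t : ℝ) : ℂ) • (X u : MvPolynomial σ ℂ) := by
  rw [lin_apply]
  refine Finset.sum_congr rfl fun u _ => ?_
  rw [Finset.sum_eq_single t]
  · rw [pderiv_X_self, mul_one]
  · intro b _ hb
    rw [pderiv_X_of_ne (Ne.symm hb), mul_zero, smul_zero]
  · intro h
    exact absurd (Finset.mem_univ t) h

theorem comm_inl (M : σ → σ → ℝ) (t : σ) :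
    lin M * gen (Sum.inl t) - gen (Sum.inl t) * lin M =
      ∑ u, ((M u t : ℝ) : ℂ) • gen (Sum.inl u) := by
  refine LinearMap.ext fun p => ?_
  rw [LinearMap.sub_apply, Module.End.mul_apply, Module.End.mul_apply, gen_inl, gen_inl, lin_mul,
    lin_X, LinearMap.sum_apply, Finset.mul_sum]
  rw [add_sub_cancel_left]
  refine Finset.sum_congr rfl fun u _ => ?_
  rw [LinearMap.smul_apply, gen_inl, mul_smul_comm, mul_comm]

theorem comm_inr (M : σ → σ → ℝ) (t : σ) :
    lin M * gen (Sum.inr t) - gen (Sum.inr t) * lin M =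
      ∑ w, (-((M t w : ℝ) : ℂ)) • gen (Sum.inr w) := by
  refine LinearMap.ext fun p => ?_
  rw [LinearMap.sub_apply, Module.End.mul_apply, Module.End.mul_apply, gen_inr, gen_inr,
    LinearMap.sum_apply, lin_apply, lin_apply, map_sum]
  have h : ∀ u, pderiv t (∑ w, ((M u w : ℝ) : ℂ) • ((X u : MvPolynomial σ ℂ) * pderiv w p)) =
      (∑ w, ((M u w : ℝ) : ℂ) • ((X u : MvPolynomial σ ℂ) * pderiv w (pderiv t p))) +
        pderiv t (X u : MvPolynomial σ ℂ) * ∑ w, ((M u w : ℝ) : ℂ) • pderiv w p := by
    intro u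
    rw [map_sum, Finset.mul_sum, ← Finset.sum_add_distrib]
    refine Finset.sum_congr rfl fun w _ => ?_
    rw [Derivation.map_smul, Derivation.leibniz, smul_eq_mul, smul_eq_mul, pderiv_comm' t w,
      smul_add, mul_smul_comm, mul_comm (pderiv t (X u : MvPolynomial σ ℂ))]
  simp only [h, Finset.sum_add_distrib]
  rw [sub_add_cancel_left, Finset.sum_eq_single t]
  · rw [pderiv_X_self, one_mul, ← Finset.sum_neg_distrib]
    refine Finset.sum_congr rfl fun w _ => ?_
    rw [LinearMap.smul_apply, gen_inr, neg_smul]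
  · intro b _ hb
    rw [pderiv_X_of_ne hb, zero_mul]
  · intro h
    exact absurd (Finset.mem_univ t) h

theorem comm_wd (M : σ → σ → ℝ) (w : List (σ ⊕ σ)) :
    lin M * wd w - wd w * lin M ∈ Wk w.length := by
  induction w with
  | nil => rw [wd_nil, mul_one, one_mul, sub_self]; exact Submodule.zero_mem _
  | cons g w ih =>
    have h1 : lin M * wd (g :: w) - wd (g :: w) * lin M =
        (lin M * gen g - gen g * lin M) * wd w + gen g * (lin M * wd w - wd w * lin M) := by
      simp only [wd_cons, sub_mul, mul_sub, mul_assoc]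
      abel
    rw [h1, List.length_cons]
    refine Submodule.add_mem _ ?_ (gen_mul_Wk g ih)
    cases g with
    | inl t =>
      rw [comm_inl, Finset.sum_mul]
      refine Submodule.sum_mem _ fun u _ => ?_
      rw [smul_mul_assoc]
      exact Submodule.smul_mem _ _ (gen_mul_Wk _ (wd_mem_Wk w))
    | inr t =>
      rw [comm_inr, Finset.sum_mul]
      refine Submodule.sum_mem _ fun u _ => ?_
      rw [smul_mul_assoc]
      exact Submodule.smul_mem _ _ (gen_mul_Wk _ (wd_mem_Wk w))

theorem lin_pow (M : σ → σ → ℝ) {c : ℂ} {f : MvPolynomial σ ℂ} (h : lin M f = c • f) (n : ℕ) :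
    lin M (f ^ n) = ((n : ℂ) * c) • f ^ n := by
  induction n with
  | zero =>
    rw [pow_zero, lin_one, Nat.cast_zero, zero_mul, zero_smul]
  | succ n ih =>
    rw [pow_succ, lin_mul, ih, h, mul_smul_comm, mul_smul_comm, mul_comm f (f ^ n), ← add_smul]
    congr 1
    push_cast
    ring

end linear

section euler

variable {σ : Type} [Fintype σ] {m : ℕ} (v : Fin (m + 1) → σ)

open Classical in
/-- the matrix of the Euler operator -/
noncomputable def EM (u w : σ) : ℝ := if u = w ∧ u ∈ Set.range v then 1 else 0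

theorem Eu_eq (hv : Function.Injective v) : Eu v = lin (EM v) := by
  classical
  unfold Eu lin
  have h1 : ∀ u : σ, ∑ w, ((EM v u w : ℝ) : ℂ) • (gen (Sum.inl u) * gen (Sum.inr w)) =
      if u ∈ Set.range v then gen (Sum.inl u) * gen (Sum.inr u) else 0 := by
    intro u
    rw [Finset.sum_eq_single u]
    · unfold EM
      by_cases hu : u ∈ Set.range v
      · simp [hu]
      · simp [hu]
    · intro b _ hb
      unfold EM
      have : ¬ (u = b ∧ u ∈ Set.range v) := fun h => hb h.1.symm
      rw [if_neg this]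
      simp
    · intro h
      exact absurd (Finset.mem_univ u) h
  rw [Finset.sum_congr rfl fun u _ => h1 u, ← Finset.sum_filter]
  have h2 : (Finset.univ.filter fun u => u ∈ Set.range v) = Finset.univ.map ⟨v, hv⟩ := by
    ext u
    simp [Set.mem_range]
  rw [h2, Finset.sum_map]
  rfl

theorem eu_wd (hv : Function.Injective v) (w : List (σ ⊕ σ)) :
    ∃ k : ℂ, Eu v * wd w = wd w * Eu v + k • wd w := by
  classical
  have hl : ∀ g : σ ⊕ σ, ∃ k : ℂ, Eu v * gen g - gen g * Eu v = k • gen g := by
    intro g
    rw [Eu_eq v hv]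
    cases g with
    | inl t =>
      refine ⟨((EM v t t : ℝ) : ℂ), ?_⟩
      rw [comm_inl, Finset.sum_eq_single t]
      · intro b _ hb
        unfold EM
        have : ¬ (b = t ∧ b ∈ Set.range v) := fun h => hb h.1
        rw [if_neg this]
        simp
      · intro h
        exact absurd (Finset.mem_univ t) h
    | inr t =>
      refine ⟨-((EM v t t : ℝ) : ℂ), ?_⟩
      rw [comm_inr, Finset.sum_eq_single t]
      · intro b _ hb
        unfold EM
        have : ¬ (t = b ∧ t ∈ Set.range v) := fun h => hb h.1.symm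
        rw [if_neg this]
        simp
      · intro h
        exact absurd (Finset.mem_univ t) h
  induction w with
  | nil => exact ⟨0, by rw [wd_nil, mul_one, one_mul, zero_smul, add_zero]⟩
  | cons g w ih =>
    obtain ⟨k, hk⟩ := ih
    obtain ⟨l, hl⟩ := hl g
    refine ⟨k + l, ?_⟩
    have h1 : Eu v * gen g = gen g * Eu v + l • gen g := by
      rw [← hl]; abel
    rw [wd_cons, ← mul_assoc, h1, add_mul, mul_assoc, hk, mul_add, mul_smul_comm, smul_mul_assoc,
      add_smul, mul_assoc]
    abel

end euler

section slice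

variable {σ : Type} {m : ℕ} (v : Fin (m + 1) → σ)

theorem sl_zero : sl v (X (v 0)) = 1 := by
  unfold sl
  rw [aeval_X, if_pos rfl]

theorem sl_succ (hv : Function.Injective v) (a : Fin m) : sl v (X (v a.succ)) = 0 := by
  unfold sl
  rw [aeval_X, if_neg (fun h => (Fin.succ_ne_zero a) (hv h)), if_pos ⟨_, rfl⟩]

theorem sl_out {t : σ} (ht : t ∉ Set.range v) : sl v (X t) = X t := by
  unfold sl
  rw [aeval_X, if_neg (fun h => ht ⟨0, h.symm⟩), if_neg ht]

theorem sl_pderiv {t : σ} (ht : t ∉ Set.range v) (p : MvPolynomial σ ℂ) :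
    sl v (pderiv t p) = pderiv t (sl v p) := by
  classical
  induction p using MvPolynomial.induction_on with
  | C a =>
    rw [pderiv_C, map_zero]
    have : sl v (C a) = C a := by
      unfold sl
      rw [← MvPolynomial.algebraMap_eq, AlgHom.commutes]
    rw [this, pderiv_C]
  | add p q hp hq => rw [map_add, map_add, hp, hq, map_add, map_add]
  | mul_X p i hp =>
    have h1 : sl v (pderiv t (X i)) = pderiv t (sl v (X i)) := by
      by_cases hi : i ∈ Set.range v
      · have hne : i ≠ t := fun h => ht (h ▸ hi)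
        rw [pderiv_X_of_ne hne, map_zero]
        obtain ⟨b, rfl⟩ := hi
        unfold sl
        rw [aeval_X]
        by_cases h0 : v b = v 0
        · rw [if_pos h0, pderiv_one]
        · rw [if_neg h0, if_pos ⟨b, rfl⟩, map_zero]
      · rw [sl_out v hi]
        by_cases hit : i = t
        · subst hit
          rw [pderiv_X_self, map_one]
        · rw [pderiv_X_of_ne hit, map_zero]
    rw [pderiv_mul, map_add, map_mul, map_mul, map_mul, pderiv_mul, hp, h1]

end slice

section good

variable {σ : Type}

/-- sequences of the form `∑ n ^ i Q_i (s ^ n)` -/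
noncomputable def G (s : MvPolynomial σ ℂ) : Submodule ℂ (ℕ → MvPolynomial σ ℂ) :=
  Submodule.span ℂ {F | ∃ (i : ℕ) (Q : Module.End ℂ (MvPolynomial σ ℂ)), Q ∈ W σ ∧
    F = fun n : ℕ => ((n : ℂ) ^ i) • Q (s ^ n)}

theorem G_one (s : MvPolynomial σ ℂ) : (fun n : ℕ => s ^ n) ∈ G s := by
  refine Submodule.subset_span ⟨0, 1, one_mem_W, ?_⟩
  funext n
  rw [pow_zero, one_smul, Module.End.one_apply]

theorem G_mulN {s : MvPolynomial σ ℂ} {F : ℕ → MvPolynomial σ ℂ} (hF : F ∈ G s) :
    (fun n : ℕ => (n : ℂ) • F n) ∈ G s := by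
  unfold G at hF
  induction hF using Submodule.span_induction with
  | mem x hx =>
    obtain ⟨i, Q, hQ, rfl⟩ := hx
    refine Submodule.subset_span ⟨i + 1, Q, hQ, ?_⟩
    funext n
    rw [smul_smul, pow_succ, mul_comm]
  | zero =>
    have : (fun n : ℕ => (n : ℂ) • (0 : ℕ → MvPolynomial σ ℂ) n) = 0 := by
      funext n
      simp
    rw [this]
    exact Submodule.zero_mem _
  | add x y _ _ hx hy =>
    have : (fun n : ℕ => (n : ℂ) • (x + y) n) =
        (fun n : ℕ => (n : ℂ) • x n) + fun n : ℕ => (n : ℂ) • y n := by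
      funext n
      simp
    rw [this]
    exact Submodule.add_mem _ hx hy
  | smul a x _ hx =>
    have : (fun n : ℕ => (n : ℂ) • (a • x) n) = a • fun n : ℕ => (n : ℂ) • x n := by
      funext n
      simp only [Pi.smul_apply]
      rw [smul_comm]
    rw [this]
    exact Submodule.smul_mem _ _ hx

theorem G_app {s : MvPolynomial σ ℂ} {T : Module.End ℂ (MvPolynomial σ ℂ)} (hT : T ∈ W σ)
    {F : ℕ → MvPolynomial σ ℂ} (hF : F ∈ G s) : (fun n : ℕ => T (F n)) ∈ G s := by
  unfold G at hF
  induction hF using Submodule.span_induction with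
  | mem x hx =>
    obtain ⟨i, Q, hQ, rfl⟩ := hx
    refine Submodule.subset_span ⟨i, T * Q, mul_mem_W hT hQ, ?_⟩
    funext n
    rw [map_smul, Module.End.mul_apply]
  | zero =>
    have : (fun n : ℕ => T ((0 : ℕ → MvPolynomial σ ℂ) n)) = 0 := by
      funext n
      simp
    rw [this]
    exact Submodule.zero_mem _
  | add x y _ _ hx hy =>
    have : (fun n : ℕ => T ((x + y) n)) = (fun n : ℕ => T (x n)) + fun n : ℕ => T (y n) := by
      funext n
      simp
    rw [this]
    exact Submodule.add_mem _ hx hy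
  | smul a x _ hx =>
    have : (fun n : ℕ => T ((a • x) n)) = a • fun n : ℕ => T (x n) := by
      funext n
      simp only [Pi.smul_apply]
      rw [map_smul]
    rw [this]
    exact Submodule.smul_mem _ _ hx

theorem G_ext {s : MvPolynomial σ ℂ} {F : ℕ → MvPolynomial σ ℂ} (hF : F ∈ G s) :
    ∃ (K : ℕ) (Q : ℕ → Module.End ℂ (MvPolynomial σ ℂ)), (∀ i, Q i ∈ W σ) ∧
      ∀ n : ℕ, F n = ∑ i ∈ Finset.range K, ((n : ℂ) ^ i) • Q i (s ^ n) := by
  unfold G at hF
  induction hF using Submodule.span_induction with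
  | mem x hx =>
    obtain ⟨i, Q, hQ, rfl⟩ := hx
    refine ⟨i + 1, fun j => if j = i then Q else 0, fun j => ?_, fun n => ?_⟩
    · dsimp only
      split_ifs
      · exact hQ
      · exact Submodule.zero_mem _
    · rw [Finset.sum_eq_single i]
      · simp
      · intro b _ hb
        simp [hb]
      · intro h
        exact absurd (Finset.mem_range.2 (Nat.lt_succ_self i)) h
  | zero => exact ⟨0, fun _ => 0, fun _ => Submodule.zero_mem _, fun n => by simp⟩
  | add x y _ _ hx hy =>
    obtain ⟨K1, Q1, h1, h1'⟩ := hx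
    obtain ⟨K2, Q2, h2, h2'⟩ := hy
    refine ⟨max K1 K2, fun i => (if i < K1 then Q1 i else 0) + (if i < K2 then Q2 i else 0),
      fun i => Submodule.add_mem _ ?_ ?_, fun n => ?_⟩
    · split_ifs
      · exact h1 i
      · exact Submodule.zero_mem _
    · split_ifs
      · exact h2 i
      · exact Submodule.zero_mem _
    · have key : ∀ (K K' : ℕ) (Q : ℕ → Module.End ℂ (MvPolynomial σ ℂ)), K ≤ K' →
          ∑ i ∈ Finset.range K, ((n : ℂ) ^ i) • Q i (s ^ n) =
            ∑ i ∈ Finset.range K', ((n : ℂ) ^ i) • (if i < K then Q i else 0) (s ^ n) := by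
        intro K K' Q hK
        rw [← Finset.sum_subset (Finset.range_mono hK)]
        · refine Finset.sum_congr rfl fun i hi => ?_
          rw [if_pos (Finset.mem_range.1 hi)]
        · intro i _ hi
          rw [if_neg (fun h => hi (Finset.mem_range.2 h)), LinearMap.zero_apply, smul_zero]
      rw [Pi.add_apply, h1', h2', key K1 _ Q1 (le_max_left K1 K2), key K2 _ Q2 (le_max_right K1 K2),
        ← Finset.sum_add_distrib]
      refine Finset.sum_congr rfl fun i _ => ?_
      rw [LinearMap.add_apply, smul_add]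
  | smul a x _ hx =>
    obtain ⟨K, Q, h, h'⟩ := hx
    refine ⟨K, fun i => a • Q i, fun i => Submodule.smul_mem _ _ (h i), fun n => ?_⟩
    rw [Pi.smul_apply, h', Finset.smul_sum]
    refine Finset.sum_congr rfl fun i _ => ?_
    rw [LinearMap.smul_apply, smul_comm]

end good

section main

variable {σ : Type} {m : ℕ} (v : Fin (m + 1) → σ)

/-- the sequence attached to an operator -/
noncomputable def Lam (f : MvPolynomial σ ℂ) :
    Module.End ℂ (MvPolynomial σ ℂ) →ₗ[ℂ] (ℕ → MvPolynomial σ ℂ) :=
  LinearMap.pi fun n => (sl v).toLinearMap ∘ₗ LinearMap.applyₗ (f ^ n)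

theorem Lam_apply (f : MvPolynomial σ ℂ) (P : Module.End ℂ (MvPolynomial σ ℂ)) (n : ℕ) :
    Lam v f P n = sl v (P (f ^ n)) := rfl

theorem Lam_of_words {f s : MvPolynomial σ ℂ} {k : ℕ}
    (h : ∀ w : List (σ ⊕ σ), w.length = k → Lam v f (wd w) ∈ G s)
    {P : Module.End ℂ (MvPolynomial σ ℂ)} (hP : P ∈ Wk k) : Lam v f P ∈ G s := by
  have h1 : Wk k ≤ (G s).comap (Lam v f) := by
    unfold Wk
    rw [Submodule.span_le]
    rintro _ ⟨w, hw, rfl⟩
    exact h w hw
  exact h1 hP

theorem lin_mem [Fintype σ] (M : σ → σ → ℝ) : lin M ∈ W σ :=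
  Submodule.sum_mem _ fun _ _ => Submodule.sum_mem _ fun _ _ =>
    Submodule.smul_mem _ _ (mul_mem_W (gen_mem _) (gen_mem _))

open Classical in
/-- the part of the vector field in the other variables -/
noncomputable def Mr (M : σ → σ → ℝ) (u w : σ) : ℝ :=
  if u ∉ Set.range v ∧ w ∉ Set.range v then M u w else 0

theorem sl_lin [Fintype σ] (hv : Function.Injective v) {M : Fin m → σ → σ → ℝ} (hM : Adm v M)
    (a : Fin m) (p : MvPolynomial σ ℂ) :
    sl v (lin (M a) p) = sl v (pderiv (v a.succ) p) + lin (Mr v (M a)) (sl v p) := by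
  classical
  have h1 : ∀ u w, sl v (((M a u w : ℝ) : ℂ) • (X u * pderiv w p)) =
      (if u = v 0 ∧ w = v a.succ then sl v (pderiv (v a.succ) p) else 0) +
        ((Mr v (M a) u w : ℝ) : ℂ) • (X u * pderiv w (sl v p)) := by
    intro u w
    rw [map_smul, map_mul]
    unfold Mr
    by_cases hu : u ∈ Set.range v
    · obtain ⟨b, rfl⟩ := hu
      have h2 := hM.2 a b w
      rw [if_neg (fun h : v b ∉ Set.range v ∧ w ∉ Set.range v => h.1 ⟨b, rfl⟩)]
      by_cases h3 : b = 0 ∧ w = v a.succ
      · obtain ⟨rfl, rfl⟩ := h3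
        have h4 : M a (v 0) (v a.succ) = 1 := by
          rw [h2]; simp
        rw [h4, sl_zero, if_pos ⟨rfl, rfl⟩]
        simp
      · have h4 : M a (v b) w = 0 := by
          rw [h2]; exact if_neg h3
        have h5 : ¬ (v b = v 0 ∧ w = v a.succ) := fun h => h3 ⟨hv h.1, h.2⟩
        rw [h4, if_neg h5]
        simp
    · by_cases hw : w ∈ Set.range v
      · obtain ⟨b, rfl⟩ := hw
        have h2 := hM.1 a u b
        have h4 : M a u (v b) = 0 := by
          rw [h2]
          exact if_neg (fun h => hu ⟨0, h.1.symm⟩)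
        rw [h4, if_neg (fun h : u ∉ Set.range v ∧ v b ∉ Set.range v => h.2 ⟨b, rfl⟩),
          if_neg (fun h : u = v 0 ∧ v b = v a.succ => hu ⟨0, h.1.symm⟩)]
        simp
      · rw [if_pos (show u ∉ Set.range v ∧ w ∉ Set.range v from ⟨hu, hw⟩),
          if_neg (fun h : u = v 0 ∧ w = v a.succ => hu ⟨0, h.1.symm⟩), sl_out v hu,
          sl_pderiv v hw, zero_add]
  rw [lin_apply, lin_apply, map_sum]
  have h2 : ∀ u, sl v (∑ w, ((M a u w : ℝ) : ℂ) • (X u * pderiv w p)) =
      (∑ w, if u = v 0 ∧ w = v a.succ then sl v (pderiv (v a.succ) p) else 0) +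
        ∑ w, ((Mr v (M a) u w : ℝ) : ℂ) • (X u * pderiv w (sl v p)) := by
    intro u
    rw [map_sum, ← Finset.sum_add_distrib]
    exact Finset.sum_congr rfl fun w _ => h1 u w
  rw [Finset.sum_congr rfl fun u _ => h2 u, Finset.sum_add_distrib]
  congr 1
  simp [ite_and]

theorem lam_main [Fintype σ] (hv : Function.Injective v) {M : Fin m → σ → σ → ℝ} (hM : Adm v M)
    {c : ℂ} {f : MvPolynomial σ ℂ} (hE : Eu v f = c • f) (hf : ∀ a, lin (M a) f = 0) (k : ℕ) :
    ∀ w : List (σ ⊕ σ), w.length = k → Lam v f (wd w) ∈ G (sl v f) := by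
  classical
  induction k with
  | zero =>
    intro w hw
    rw [List.length_eq_zero_iff] at hw
    subst hw
    have : Lam v f (wd []) = fun n : ℕ => (sl v f) ^ n := by
      funext n
      rw [Lam_apply, wd_nil, Module.End.one_apply, map_pow]
    rw [this]
    exact G_one _
  | succ k ih =>
    intro w hw
    have ih' : ∀ P : Module.End ℂ (MvPolynomial σ ℂ), P ∈ Wk k → Lam v f P ∈ G (sl v f) :=
      fun P hP => Lam_of_words v ih hP
    match w, hw with
    | g :: w, hw =>
      have hwk : w.length = k := by simpa using hw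
      have h0 := ih w hwk
      cases g with
      | inl u =>
        by_cases hu : u ∈ Set.range v
        · obtain ⟨b, rfl⟩ := hu
          refine Fin.cases ?_ (fun a => ?_) b
          · have : Lam v f (wd (Sum.inl (v 0) :: w)) = Lam v f (wd w) := by
              funext n
              rw [Lam_apply, Lam_apply, wd_cons, Module.End.mul_apply, gen_inl, map_mul, sl_zero,
                one_mul]
            rw [this]
            exact h0
          · have : Lam v f (wd (Sum.inl (v a.succ) :: w)) = 0 := by
              funext n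
              rw [Lam_apply, wd_cons, Module.End.mul_apply, gen_inl, map_mul, sl_succ v hv,
                zero_mul]
              rfl
            rw [this]
            exact Submodule.zero_mem _
        · have : Lam v f (wd (Sum.inl u :: w)) =
              fun n : ℕ => gen (Sum.inl u) (Lam v f (wd w) n) := by
            funext n
            rw [Lam_apply, Lam_apply, wd_cons, Module.End.mul_apply, gen_inl, map_mul, sl_out v hu,
              gen_inl]
          rw [this]
          exact G_app (gen_mem _) h0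
      | inr t =>
        by_cases ht : t ∈ Set.range v
        · obtain ⟨b, rfl⟩ := ht
          refine Fin.cases ?_ (fun a => ?_) b
          · -- the derivative in the direction `v 0`
            obtain ⟨κ, hκ⟩ := eu_wd v hv w
            have h1 : ∀ n : ℕ, Eu v (wd w (f ^ n)) = ((n : ℂ) * c + κ) • wd w (f ^ n) := by
              intro n
              have h2 : Eu v (f ^ n) = ((n : ℂ) * c) • f ^ n := by
                rw [Eu_eq v hv] at hE ⊢
                exact lin_pow _ hE n
              have h3 := LinearMap.congr_fun hκ (f ^ n)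
              rw [Module.End.mul_apply, LinearMap.add_apply, Module.End.mul_apply,
                LinearMap.smul_apply, h2, map_smul, ← add_smul] at h3
              exact h3
            have h4 : ∀ p : MvPolynomial σ ℂ, sl v (Eu v p) = sl v (pderiv (v 0) p) := by
              intro p
              have : Eu v p = ∑ a, X (v a) * pderiv (v a) p := by
                simp only [Eu, LinearMap.sum_apply, Module.End.mul_apply, gen_inl, gen_inr]
              rw [this, map_sum, Fin.sum_univ_succ, map_mul, sl_zero, one_mul]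
              rw [Finset.sum_eq_zero, add_zero]
              intro a _
              rw [map_mul, sl_succ v hv, zero_mul]
            have : Lam v f (wd (Sum.inr (v 0) :: w)) =
                (c • fun n : ℕ => (n : ℂ) • Lam v f (wd w) n) + κ • Lam v f (wd w) := by
              funext n
              rw [Lam_apply, wd_cons, Module.End.mul_apply, gen_inr, ← h4, h1, map_smul,
                Pi.add_apply, Pi.smul_apply, Pi.smul_apply, Lam_apply, add_smul, smul_smul,
                mul_comm c]
            rw [this]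
            exact Submodule.add_mem _ (Submodule.smul_mem _ _ (G_mulN h0))
              (Submodule.smul_mem _ _ h0)
          · -- the derivative in the direction `v a.succ`
            have h1 : ∀ n : ℕ, lin (M a) (f ^ n) = 0 := by
              intro n
              have h2 : lin (M a) f = (0 : ℂ) • f := by rw [hf a, zero_smul]
              rw [lin_pow (M a) h2 n, mul_zero, zero_smul]
            have : Lam v f (wd (Sum.inr (v a.succ) :: w)) =
                Lam v f (lin (M a) * wd w - wd w * lin (M a)) -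
                  fun n : ℕ => lin (Mr v (M a)) (Lam v f (wd w) n) := by
              funext n
              rw [Pi.sub_apply, Lam_apply, Lam_apply, Lam_apply, wd_cons, Module.End.mul_apply,
                gen_inr, LinearMap.sub_apply, Module.End.mul_apply, Module.End.mul_apply, h1,
                map_zero, sub_zero, sl_lin v hv hM, add_sub_cancel_right]
            rw [this]
            refine Submodule.sub_mem _ (ih' _ ?_) (G_app (lin_mem _) h0)
            have h3 := comm_wd (M a) w
            rwa [hwk] at h3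
        · have : Lam v f (wd (Sum.inr t :: w)) =
              fun n : ℕ => gen (Sum.inr t) (Lam v f (wd w) n) := by
            funext n
            rw [Lam_apply, Lam_apply, wd_cons, Module.End.mul_apply, gen_inr, sl_pderiv v ht,
              gen_inr]
          rw [this]
          exact G_app (gen_mem _) h0

theorem t_SLC : S_SLC := by
  intro σ _ m v M hv hM c f hE hf P hP
  have h : Lam v f P ∈ G (sl v f) := by
    have h1 : W σ ≤ (G (sl v f)).comap (Lam v f) := by
      unfold W
      rw [Submodule.span_le]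
      rintro _ ⟨w, rfl⟩
      exact lam_main v hv hM hE hf w.length w rfl
    exact h1 hP
  obtain ⟨K, Q, hQ, hn⟩ := G_ext h
  exact ⟨K, Q, hQ, fun n => by rw [← hn n, Lam_apply]⟩

end main

end Pool.Agent.K1H31.KR
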